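import Mathlib

namespace Pool.Agent.Results.MP_f27806_co.PrimeFieldLowerBound

open scoped LinearAlgebra.Projectivization

/-- `L` is a line of the linear complex of `f`: it is spanned by two linearly independent vectors
`u`, `v` with `f u v = 0`. -/
def IsComplexLine {K : Type*} [Field K] (f : LinearMap.BilinForm K (Fin 4 → K))
    (L : Submodule K (Fin 4 → K)) : Prop :=
  ∃ u v : Fin 4 → K, LinearIndependent K ![u, v] ∧ L = Submodule.span K {u, v} ∧ f u v = 0

/-- The graph on the points of `PG(3, K)`: two distinct points are adjacent when the line joining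
them belongs to the linear complex of `f`. -/
def complexGraph {K : Type*} [Field K] (f : LinearMap.BilinForm K (Fin 4 → K)) :
    SimpleGraph (ℙ K (Fin 4 → K)) where
  Adj x y := x ≠ y ∧ IsComplexLine f (x.submodule ⊔ y.submodule)
  symm := ⟨fun x y h => ⟨h.1.symm, by rw [sup_comm]; exact h.2⟩⟩
  loopless := ⟨fun x h => h.1 rfl⟩

/-! ### The integer digit construction -/

/-- digits -/
def D : Finset (ℤ × ℤ × ℤ) :=
  {(0, 0, 0), (0, 0, 2), (1, 0, 1), (1, 0, 3), (0, 1, 1), (0, 1, 3), (1, 1, 1), (1, 1, 3)}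

/-- one digit step -/
def step (d x : ℤ × ℤ × ℤ) : ℤ × ℤ × ℤ :=
  (d.1 + 2 * x.1, d.2.1 + 2 * x.2.1,
    d.2.2 + 4 * x.2.2 + 2 * (d.1 * x.2.1 - d.2.1 * x.1))

/-- the sets -/
def A : ℕ → Finset (ℤ × ℤ × ℤ)
  | 0 => {(0, 0, 0)}
  | n + 1 => (D ×ˢ A n).image (fun q => step q.1 q.2)

/-- discrepancy -/
def disc (x y : ℤ × ℤ × ℤ) : ℤ := y.2.2 - x.2.2 - (x.1 * y.2.1 - x.2.1 * y.1)

lemma disc_step (d e x y : ℤ × ℤ × ℤ) :
    disc (step d x) (step e y) = disc d e +
      2 * ((e.1 - d.1) * (x.2.1 + y.2.1) - (e.2.1 - d.2.1) * (x.1 + y.1)) + 4 * disc x y := by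
  simp only [disc, step]; ring

lemma D_key : ∀ d ∈ D, ∀ e ∈ D, d ≠ e →
    (disc d e % 2 = 1) ∨ (d.1 = e.1 ∧ d.2.1 = e.2.1 ∧ disc d e % 4 = 2) := by
  decide

lemma D_bound : ∀ d ∈ D, 0 ≤ d.1 ∧ d.1 ≤ 1 ∧ 0 ≤ d.2.1 ∧ d.2.1 ≤ 1 ∧ 0 ≤ d.2.2 ∧ d.2.2 ≤ 3 := by
  decide

lemma A_disc (n : ℕ) : ∀ x ∈ A n, ∀ y ∈ A n, x ≠ y → disc x y ≠ 0 := by
  induction n with
  | zero =>
    intro x hx y hy hxy
    simp only [A, Finset.mem_singleton] at hx hy
    exact absurd (hx.trans hy.symm) hxy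
  | succ n ih =>
    intro x hx y hy hxy h0
    simp only [A, Finset.mem_image, Finset.mem_product, Prod.exists] at hx hy
    obtain ⟨d1, d2, d3, x1, x2, x3, ⟨hd, hx'⟩, rfl⟩ := hx
    obtain ⟨e1, e2, e3, y1, y2, y3, ⟨he, hy'⟩, rfl⟩ := hy
    rw [disc_step] at h0
    by_cases hde : ((d1, d2, d3) : ℤ × ℤ × ℤ) = (e1, e2, e3)
    · have hxy' : ((x1, x2, x3) : ℤ × ℤ × ℤ) ≠ (y1, y2, y3) := by
        intro h
        exact hxy (by rw [hde, h])
      have := ih _ hx' _ hy' hxy'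
      apply this
      rw [hde] at h0
      simp only [disc] at h0 ⊢
      linarith
    · rcases D_key _ hd _ he hde with h | ⟨h1, h2, h⟩
      · omega
      · simp only at h1 h2
        rw [h1, h2] at h0
        simp only [sub_self, zero_mul, mul_zero, add_zero] at h0
        rw [h1, h2] at h
        omega

lemma step_inj (n : ℕ) : Set.InjOn (fun q : (ℤ × ℤ × ℤ) × (ℤ × ℤ × ℤ) => step q.1 q.2)
    (D ×ˢ A n : Finset _) := by
  rintro ⟨⟨d1, d2, d3⟩, ⟨x1, x2, x3⟩⟩ hx ⟨⟨e1, e2, e3⟩, ⟨y1, y2, y3⟩⟩ hy h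
  simp only [Finset.coe_product, Set.mem_prod, Finset.mem_coe] at hx hy
  have hd := D_bound _ hx.1
  have he := D_bound _ hy.1
  simp only [step, Prod.mk.injEq] at h hd he
  obtain ⟨h1, h2, h3⟩ := h
  have a1 : d1 = e1 := by omega
  have a2 : d2 = e2 := by omega
  have b1 : x1 = y1 := by omega
  have b2 : x2 = y2 := by omega
  subst a1 a2 b1 b2
  have a3 : d3 = e3 := by omega
  have b3 : x3 = y3 := by omega
  subst a3 b3
  rfl

lemma A_card (n : ℕ) : (A n).card = 8 ^ n := by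
  induction n with
  | zero => simp [A]
  | succ n ih =>
    rw [A, Finset.card_image_of_injOn (step_inj n), Finset.card_product, ih]
    have : D.card = 8 := by decide
    rw [this, pow_succ, mul_comm]

lemma A_bound (n : ℕ) : ∀ x ∈ A n, 0 ≤ x.1 ∧ x.1 ≤ 2 ^ n - 1 ∧ 0 ≤ x.2.1 ∧ x.2.1 ≤ 2 ^ n - 1 ∧
    3 * |x.2.2| ≤ 4 * 4 ^ n - 3 * 2 ^ n - 1 := by
  induction n with
  | zero =>
    intro x hx
    simp only [A, Finset.mem_singleton] at hx
    subst hx
    simp
  | succ n ih =>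
    intro x hx
    simp only [A, Finset.mem_image, Finset.mem_product, Prod.exists] at hx
    obtain ⟨d1, d2, d3, x1, x2, x3, ⟨hd, hx'⟩, rfl⟩ := hx
    obtain ⟨k1, k2, k3, k4, k5, k6⟩ := D_bound _ hd
    obtain ⟨l1, l2, l3, l4, l5⟩ := ih _ hx'
    simp only at k1 k2 k3 k4 k5 k6 l1 l2 l3 l4 l5
    simp only [step]
    have e2 : (2 : ℤ) ^ (n + 1) = 2 * 2 ^ n := by ring
    have e4 : (4 : ℤ) ^ (n + 1) = 4 * 4 ^ n := by ring
    have hdet : |d1 * x2 - d2 * x1| ≤ 2 ^ n - 1 := by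
      rw [abs_le]
      have c1 : d1 = 0 ∨ d1 = 1 := by omega
      have c2 : d2 = 0 ∨ d2 = 1 := by omega
      rcases c1 with rfl | rfl <;> rcases c2 with rfl | rfl <;> constructor <;> omega
    refine ⟨by omega, by omega, by omega, by omega, ?_⟩
    rw [abs_le] at hdet
    have l5' := l5
    have habs : |d3 + 4 * x3 + 2 * (d1 * x2 - d2 * x1)| ≤ 3 + 4 * |x3| + 2 * (2 ^ n - 1) := by
      rw [abs_le]
      have := neg_abs_le x3
      have := le_abs_self x3
      constructor <;> linarith [hdet.1, hdet.2]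
    rw [e2, e4]
    linarith

lemma disc_lt (n : ℕ) : ∀ x ∈ A n, ∀ y ∈ A n, |disc x y| < 4 * 4 ^ n := by
  intro x hx y hy
  obtain ⟨k1, k2, k3, k4, k5⟩ := A_bound n x hx
  obtain ⟨l1, l2, l3, l4, l5⟩ := A_bound n y hy
  have hx3 := abs_le.1 (show |x.2.2| ≤ |x.2.2| from le_rfl)
  have hy3 := abs_le.1 (show |y.2.2| ≤ |y.2.2| from le_rfl)
  have e : (4 : ℤ) ^ n = 2 ^ n * 2 ^ n := by
    rw [← mul_pow]; norm_num
  have hp : (0 : ℤ) < 2 ^ n := by positivity
  have m1 : 0 ≤ x.1 * y.2.1 := mul_nonneg k1 l3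
  have m2 : 0 ≤ x.2.1 * y.1 := mul_nonneg k3 l1
  have m3 : x.1 * y.2.1 ≤ 2 ^ n * 2 ^ n :=
    mul_le_mul (by linarith) (by linarith) l3 hp.le
  have m4 : x.2.1 * y.1 ≤ 2 ^ n * 2 ^ n :=
    mul_le_mul (by linarith) (by linarith) l1 hp.le
  simp only [disc]
  rw [abs_lt]
  constructor <;> nlinarith [hx3.1, hx3.2, hy3.1, hy3.2]

/-! ### From integers to the projective space -/

section field

variable {K : Type*} [Field K] (f : LinearMap.BilinForm K (Fin 4 → K))

lemma exists_frame (ha : f.IsAlt) (hn : f.Nondegenerate) :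
    ∃ e1 e2 e3 e4 : Fin 4 → K, f e1 e4 = 1 ∧ f e2 e3 = -1 ∧ f e1 e2 = 0 ∧ f e1 e3 = 0 ∧
      f e4 e2 = 0 ∧ f e4 e3 = 0 := by
  have key : ∀ x : Fin 4 → K, x ≠ 0 → ∃ y, f x y ≠ 0 := by
    intro x hx
    by_contra h
    push Not at h
    exact hx (hn.1 x h)
  obtain ⟨e1, he1'⟩ : ∃ e1 : Fin 4 → K, e1 ≠ 0 := by
    refine ⟨Pi.single 0 1, ?_⟩
    intro h
    have := congrFun h 0
    simp at this
  obtain ⟨y, hy⟩ := key e1 he1'
  obtain ⟨e4, h14⟩ : ∃ e4, f e1 e4 = 1 :=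
    ⟨(f e1 y)⁻¹ • y, by rw [map_smul, smul_eq_mul, inv_mul_cancel₀ hy]⟩
  have hlt : Module.finrank K (Fin 2 → K) < Module.finrank K (Fin 4 → K) := by
    simp
  obtain ⟨e2, he2, he2'⟩ := (Submodule.ne_bot_iff _).1
    (LinearMap.ker_ne_bot_of_finrank_lt (f := LinearMap.pi ![f e1, f e4]) hlt)
  rw [LinearMap.mem_ker] at he2
  have h12 : f e1 e2 = 0 := by simpa using congrFun he2 0
  have h42 : f e4 e2 = 0 := by simpa using congrFun he2 1
  obtain ⟨z, hz⟩ := key e2 he2'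
  set z' : Fin 4 → K := z + (f e4 z) • e1 - (f e1 z) • e4 with hz'
  have h41 : f e4 e1 = -1 := by
    rw [← ha.neg_eq, h14]
  have h1z : f e1 z' = 0 := by
    rw [hz', map_sub, map_add, map_smul, map_smul, h14, ha.self_eq_zero]; simp
  have h4z : f e4 z' = 0 := by
    rw [hz', map_sub, map_add, map_smul, map_smul, h41, ha.self_eq_zero]; simp
  have h2z : f e2 z' = f e2 z := by
    rw [hz', map_sub, map_add, map_smul, map_smul]
    have h21 : f e2 e1 = 0 := by rw [← ha.neg_eq, h12, neg_zero]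
    have h24 : f e2 e4 = 0 := by rw [← ha.neg_eq, h42, neg_zero]
    rw [h21, h24]; simp
  refine ⟨e1, e2, (-(f e2 z)⁻¹) • z', e4, h14, ?_, h12, ?_, h42, ?_⟩
  · rw [map_smul, h2z, smul_eq_mul]
    field_simp
  · rw [map_smul, h1z, smul_zero]
  · rw [map_smul, h4z, smul_zero]

lemma adj_zero (ha : f.IsAlt) {x y : Fin 4 → K} {hx : x ≠ 0} {hy : y ≠ 0}
    (h : (complexGraph f).Adj (Projectivization.mk K x hx) (Projectivization.mk K y hy)) :
    f x y = 0 := by
  obtain ⟨-, u, v, -, hL, huv⟩ := h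
  rw [Projectivization.submodule_mk, Projectivization.submodule_mk] at hL
  have hx' : x ∈ Submodule.span K {u, v} := by
    rw [← hL]
    exact Submodule.mem_sup_left (Submodule.mem_span_singleton_self x)
  have hy' : y ∈ Submodule.span K {u, v} := by
    rw [← hL]
    exact Submodule.mem_sup_right (Submodule.mem_span_singleton_self y)
  obtain ⟨a, b, rfl⟩ := Submodule.mem_span_pair.1 hx'
  obtain ⟨c, d, rfl⟩ := Submodule.mem_span_pair.1 hy'
  have hvu : f v u = 0 := by rw [← ha.neg_eq, huv, neg_zero]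
  simp [map_add, map_smul, ha.self_eq_zero, huv, hvu]

end field

/-- the symplectic value of two affine points -/
lemma form_value {K : Type*} [Field K] (f : LinearMap.BilinForm K (Fin 4 → K)) (ha : f.IsAlt)
    {e1 e2 e3 e4 : Fin 4 → K} (h14 : f e1 e4 = 1) (h23 : f e2 e3 = -1) (h12 : f e1 e2 = 0)
    (h13 : f e1 e3 = 0) (h42 : f e4 e2 = 0) (h43 : f e4 e3 = 0) (a b c a' b' c' : K) :
    f (e1 + a • e2 + b • e3 + c • e4) (e1 + a' • e2 + b' • e3 + c' • e4) =
      c' - c - (a * b' - b * a') := by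
  have h41 : f e4 e1 = -1 := by rw [← ha.neg_eq, h14]
  have h32 : f e3 e2 = 1 := by rw [← ha.neg_eq, h23, neg_neg]
  have h21 : f e2 e1 = 0 := by rw [← ha.neg_eq, h12, neg_zero]
  have h31 : f e3 e1 = 0 := by rw [← ha.neg_eq, h13, neg_zero]
  have h24 : f e2 e4 = 0 := by rw [← ha.neg_eq, h42, neg_zero]
  have h34 : f e3 e4 = 0 := by rw [← ha.neg_eq, h43, neg_zero]
  simp only [map_add, map_smul, LinearMap.add_apply, LinearMap.smul_apply, smul_eq_mul, h14, h23,
    h12, h13, h42, h43, h41, h32, h21, h31, h24, h34, ha.self_eq_zero]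
  ring

theorem exists_indep (p : ℕ) [Fact p.Prime] (f : LinearMap.BilinForm (ZMod p) (Fin 4 → ZMod p))
    (ha : f.IsAlt) (hn : f.Nondegenerate) (n : ℕ) (hp : 4 * 4 ^ n ≤ p) :
    8 ^ n ≤ (complexGraph f).indepNum := by
  obtain ⟨e1, e2, e3, e4, h14, h23, h12, h13, h42, h43⟩ := exists_frame f ha hn
  have hval := form_value f ha h14 h23 h12 h13 h42 h43
  let vec : ℤ × ℤ × ℤ → Fin 4 → ZMod p := fun x =>
    e1 + (x.1 : ZMod p) • e2 + (x.2.1 : ZMod p) • e3 + (x.2.2 : ZMod p) • e4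
  have hvec : ∀ x y, f (vec x) (vec y) = ((disc x y : ℤ) : ZMod p) := by
    intro x y
    simp only [vec]
    rw [hval]
    simp [disc]
  have hne : ∀ x, vec x ≠ 0 := by
    intro x h
    have h1 : f (vec x) e4 = 0 := by rw [h]; simp
    have h24 : f e2 e4 = 0 := by rw [← ha.neg_eq, h42, neg_zero]
    have h34 : f e3 e4 = 0 := by rw [← ha.neg_eq, h43, neg_zero]
    simp [vec, h14, h24, h34, ha.self_eq_zero] at h1
  have hdisc : ∀ x ∈ A n, ∀ y ∈ A n, x ≠ y → f (vec x) (vec y) ≠ 0 := by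
    intro x hx y hy hxy h
    rw [hvec, ZMod.intCast_zmod_eq_zero_iff_dvd] at h
    have h1 := A_disc n x hx y hy hxy
    have h2 := disc_lt n x hx y hy
    have h3 := Int.le_of_dvd (abs_pos.2 h1) ((dvd_abs _ _).2 h)
    have h4 : ((4 * 4 ^ n : ℕ) : ℤ) ≤ p := by exact_mod_cast hp
    push_cast at h4
    linarith
  let pt : ℤ × ℤ × ℤ → ℙ (ZMod p) (Fin 4 → ZMod p) := fun x => Projectivization.mk _ (vec x) (hne x)
  have hinj : Set.InjOn pt (A n : Set (ℤ × ℤ × ℤ)) := by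
    intro x hx y hy h
    by_contra hxy
    simp only [pt] at h
    rw [Projectivization.mk_eq_mk_iff'] at h
    obtain ⟨a, ha'⟩ := h
    apply hdisc x hx y hy hxy
    rw [← ha', map_smul]
    simp [ha.self_eq_zero]
  classical
  have hcard : ((A n).image pt).card = 8 ^ n := by
    rw [Finset.card_image_of_injOn hinj, A_card]
  rw [← hcard]
  apply SimpleGraph.IsIndepSet.card_le_indepNum
  intro X hX Y hY hXY hadj
  simp only [Finset.coe_image, Set.mem_image, Finset.mem_coe] at hX hY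
  obtain ⟨x, hx, rfl⟩ := hX
  obtain ⟨y, hy, rfl⟩ := hY
  have hxy : x ≠ y := fun h => hXY (by rw [h])
  exact hdisc x hx y hy hxy (adj_zero f ha hadj)

/-- For every prime `p` and every nondegenerate alternating form `f` on `F_p^4` the graph of the
linear complex of `f` has an independent set of size at least `p^(3/2) / 64`. -/
theorem result (p : ℕ) [hpp : Fact p.Prime]
    (f : LinearMap.BilinForm (ZMod p) (Fin 4 → ZMod p)) (ha : f.IsAlt) (hn : f.Nondegenerate) :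
    (p : ℝ) ^ (3 / 2 : ℝ) / 64 ≤ ((complexGraph f).indepNum : ℝ) := by
  have hp2 := hpp.out.two_le
  have h4 : ((4 : ℝ) ^ (3 / 2 : ℝ)) = 8 := by
    rw [show (4 : ℝ) = 2 ^ (2 : ℝ) by norm_num, ← Real.rpow_mul (by norm_num)]
    norm_num
  by_cases hp4 : p < 4
  · have h1 : 1 ≤ (complexGraph f).indepNum := by
      have hx : (Pi.single 0 1 : Fin 4 → ZMod p) ≠ 0 := by
        intro h
        have := congrFun h 0
        simp at this
      have := SimpleGraph.IsIndepSet.card_le_indepNum (G := complexGraph f)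
        (t := {Projectivization.mk (ZMod p) _ hx}) (by simp)
      simpa using this
    have h3 : (p : ℝ) ^ (3 / 2 : ℝ) ≤ 4 ^ (3 / 2 : ℝ) := by
      apply Real.rpow_le_rpow (by positivity) (by exact_mod_cast hp4.le) (by norm_num)
    have h5 : (1 : ℝ) ≤ ((complexGraph f).indepNum : ℝ) := by exact_mod_cast h1
    rw [h4] at h3
    linarith
  · push Not at hp4
    have hlog : p ≠ 0 := by omega
    obtain ⟨n, hn'⟩ : ∃ n, Nat.log 4 p = n + 1 := by
      have : 1 ≤ Nat.log 4 p := Nat.log_pos (by norm_num) hp4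
      exact ⟨Nat.log 4 p - 1, by omega⟩
    have h1 : 4 ^ (n + 1) ≤ p := by
      rw [← hn']; exact Nat.pow_log_le_self 4 hlog
    have h2 : p < 4 ^ (n + 2) := by
      have := Nat.lt_pow_succ_log_self (b := 4) (by norm_num) p
      rw [hn'] at this
      exact this
    have h3 := exists_indep p f ha hn n (by rw [pow_succ] at h1; linarith)
    have h5 : (p : ℝ) ^ (3 / 2 : ℝ) ≤ ((4 : ℝ) ^ (n + 2)) ^ (3 / 2 : ℝ) := by
      apply Real.rpow_le_rpow (by positivity) (by exact_mod_cast h2.le) (by norm_num)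
    have h6 : ((4 : ℝ) ^ (n + 2)) ^ (3 / 2 : ℝ) = 8 ^ (n + 2) := by
      rw [← Real.rpow_natCast, ← Real.rpow_mul (by norm_num), mul_comm, Real.rpow_mul (by norm_num),
        h4, Real.rpow_natCast]
    rw [h6] at h5
    have h7 : ((8 : ℝ) ^ n) ≤ ((complexGraph f).indepNum : ℝ) := by exact_mod_cast h3
    have h8 : (8 : ℝ) ^ (n + 2) = 64 * 8 ^ n := by ring
    rw [h8] at h5
    linarith

end Pool.Agent.Results.MP_f27806_co.PrimeFieldLowerBound
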